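import Mathlib
import Pool.Agent.Y605.NS.Red

/-!
# Short induced nonseparating cycles cannot be approximated

`NPHardCycle` (starting result) shows that finding a shortest induced nonseparating cycle through a
given edge of a 3-connected graph is NP-hard. Here: even approximating its length within a factor
`n ^ (1 - ε)` is NP-hard. In the graphs of the reduction the thick legs are made much longer than
all other distances, and short cycles through the edge are shown not to need the exact length.
-/

set_option autoImplicit false

namespace Pool.Agent.Results.MP_75fd85_lc.Inapproximability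

open Pool.Agent.NPC Pool.Agent.H598R2.Ns Pool.Agent.Y605.NS

/-- Let `0 < ε ≤ 1`.

(i) Every language `L` in NP has a polynomial-time reduction `f` to 3-connected graphs on `n`
vertices with an edge `ab` and a number `t` such that, for some `s ≥ 1` with
`s * n ^ (1 - ε) ≤ t`, there is an induced nonseparating cycle of length at most `s` through `ab`
for the members of `L`, and all these cycles are longer than `t` for the other words.

(ii) If some polynomial-time algorithm finds, for every 3-connected graph on `n` vertices and every
edge `ab` of it, an induced nonseparating cycle through `ab` whose length is at most `n ^ (1 - ε)`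
times the minimum, then every language in NP is decidable in polynomial time. -/
theorem result (ε : ℝ) (hε : 0 < ε) (hε1 : ε ≤ 1) :
    (∀ L : Set (List Bool), InNP L → ∃ f : List Bool → (Graph × (ℕ × ℕ)) × ℕ,
      PolyTime (fun w => bits (f w)) ∧
      ∀ w, IsGraph (f w).1.1 ∧ ThreeConnected (toG (f w).1.1) ∧
        ∃ a b : Fin (f w).1.1.1, a.val = (f w).1.2.1 ∧ b.val = (f w).1.2.2 ∧
          (toG (f w).1.1).Adj a b ∧ ∃ s : ℕ, 1 ≤ s ∧
          (s : ℝ) * ((f w).1.1.1 : ℝ) ^ (1 - ε) ≤ (f w).2 ∧
          (w ∈ L → ∃ l, IsIndNonsep (toG (f w).1.1) a b l ∧ l.length ≤ s) ∧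
          (w ∉ L → ∀ l, IsIndNonsep (toG (f w).1.1) a b l → (f w).2 < l.length)) ∧
    ((∃ A : List Bool → List Bool, PolyTime A ∧
        ∀ (G : Graph) (a b : Fin G.1), IsGraph G → ThreeConnected (toG G) → (toG G).Adj a b →
          ∃ l, IsIndNonsep (toG G) a b l ∧
            (∀ l', IsIndNonsep (toG G) a b l' →
              (l.length : ℝ) ≤ (G.1 : ℝ) ^ (1 - ε) * l'.length) ∧
            A (bits (G, (a.val, b.val))) = bits (l.map Fin.val)) →
      ∀ L : Set (List Bool), InNP L → InP L) :=
  ⟨gap hε hε1, fun ⟨_, hA, hAc⟩ => no_approx hε hε1 hA hAc⟩

end Pool.Agent.Results.MP_75fd85_lc.Inapproximability
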